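import Mathlib

namespace Pool.Agent.Results.MP_9356de_co.Both

open Finset Pointwise

theorem conway : ∃ C : Finset ℤ, C.Nonempty ∧ (C + C).card = 26 ∧ (C - C).card = 25 ∧ ∀ c ∈ C, 0 ≤ c :=
  ⟨{0, 2, 3, 4, 7, 11, 12, 14}, by decide +kernel, by decide +kernel, by decide +kernel, by decide +kernel⟩

theorem tens (d : ℕ) : ∃ B : Finset ℤ, B.Nonempty ∧ (∀ b ∈ B, 0 ≤ b) ∧
    26 ^ d * (B - B).card ≤ 25 ^ d * (B + B).card := by
  induction d with
  | zero => exact ⟨{0}, by simp, by simp, by simp⟩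
  | succ d ih =>
    obtain ⟨B, h1, h2, h3⟩ := ih
    obtain ⟨m, hm⟩ : ∃ m : ℤ, ∀ x ∈ B + B, x < m := ⟨(B + B).max' (h1.add h1) + 1, fun x hx =>
      Int.lt_add_one_iff.mpr (le_max' _ _ hx)⟩
    have hn : ∀ x ∈ B + B, 0 ≤ x := fun x hx => by
      obtain ⟨a, ha, b, hb, rfl⟩ := mem_add.mp hx
      exact add_nonneg (h2 a ha) (h2 b hb)
    have hm0 : 0 < m := by
      obtain ⟨x, hx⟩ := h1.add h1
      exact lt_of_le_of_lt (hn x hx) (hm x hx)
    obtain ⟨C, c0, c1, c2, c3⟩ := conway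
    refine ⟨B + C.image (m * ·), h1.add (c0.image _), fun x hx => ?_, ?_⟩
    · obtain ⟨a, ha, b, hb, rfl⟩ := mem_add.mp hx
      obtain ⟨c, hc, rfl⟩ := mem_image.mp hb
      have := c3 c hc
      have := h2 a ha
      positivity
    · have e1 : (B + C.image (m * ·) - (B + C.image (m * ·))).card ≤ (B - B).card * 25 := by
        rw [add_sub_add_comm, ← c2]
        refine card_add_le.trans (Nat.mul_le_mul_left _ ?_)
        refine le_trans (card_le_card ?_) (card_image_le (s := C - C) (f := fun x => m * x))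
        intro x hx
        obtain ⟨a, ha, b, hb, rfl⟩ := mem_sub.mp hx
        obtain ⟨c, hc, rfl⟩ := mem_image.mp ha
        obtain ⟨c', hc', rfl⟩ := mem_image.mp hb
        exact mem_image.mpr ⟨c - c', sub_mem_sub hc hc', by simp [mul_sub]⟩
      have e2 : (B + B).card * 26 ≤ (B + C.image (m * ·) + (B + C.image (m * ·))).card := by
        rw [← c1, ← card_product]
        refine card_le_card_of_injOn (fun p => p.1 + m * p.2) ?_ ?_
        · rintro ⟨x, y⟩ h
          obtain ⟨hx, hy⟩ := mem_product.mp h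
          obtain ⟨a, ha, b, hb, rfl⟩ := mem_add.mp hx
          obtain ⟨c, hc, c', hc', rfl⟩ := mem_add.mp hy
          refine mem_coe.mpr (mem_add.mpr ⟨a + m * c, add_mem_add ha (mem_image_of_mem _ hc), b + m * c',
            add_mem_add hb (mem_image_of_mem _ hc'), ?_⟩)
          simp only; ring
        · rintro ⟨x, y⟩ h ⟨x', y'⟩ h' e
          have hx := (mem_product.mp h).1
          have hx' := (mem_product.mp h').1
          have a1 := hm x hx
          have a2 := hm x' hx'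
          have a3 := hn x hx
          have a4 := hn x' hx'
          simp only at e a1 a2 a3 a4
          have : y = y' := by
            rcases lt_trichotomy y y' with l | l | l
            · nlinarith
            · exact l
            · nlinarith
          subst this
          exact Prod.ext (by linarith) rfl
      rw [pow_succ, pow_succ]
      nlinarith [Nat.mul_le_mul_left (26 ^ d * 26) e1, Nat.mul_le_mul_left (25 ^ d * 25) e2]

theorem many (K : ℕ) : ∃ v : ℕ, 8 ≤ v ∧ K * v ≤ ((range (v ^ 2 + 1)).filter Nat.Prime).card := by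
  set w : ℕ := 8 * K + 8 with hw
  have hw8 : (8:ℝ) ≤ w := by exact_mod_cast (show 8 ≤ w by omega)
  refine ⟨w ^ 2, by nlinarith [show 8 ≤ w by omega], ?_⟩
  have h := Chebyshev.pi_ge ((w ^ 2) ^ 2)
  rw [Nat.primeCounting, Nat.primeCounting', Nat.count_eq_card_filter_range] at h
  refine Nat.cast_le (α := ℝ).mp (le_trans ?_ h)
  push_cast
  have l1 : Real.log (((w:ℝ) ^ 2) ^ 2) = 4 * Real.log w := by rw [Real.log_pow, Real.log_pow]; push_cast; ring
  have l2 : Real.log w ≤ w := (Real.log_le_sub_one_of_pos (by linarith)).trans (by linarith)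
  have l3 : 0 < Real.log w := Real.log_pos (by linarith)
  have l4 : Real.log (((w:ℝ) ^ 2) ^ 2 + 1) ≤ 2 * (w:ℝ) ^ 2 := by
    have a : ((w:ℝ) ^ 2) ^ 2 + 1 ≤ ((w:ℝ) ^ 2 + 1) ^ 2 := by nlinarith
    refine (Real.log_le_log (by positivity) a).trans ?_
    rw [Real.log_pow]
    have := Real.log_le_sub_one_of_pos (show 0 < (w:ℝ) ^ 2 + 1 by positivity)
    push_cast; linarith
  have l5 := Real.log_two_gt_d9
  rw [l1, le_div_iff₀ (by linarith)]
  have hK : (w:ℝ) = 8 * K + 8 := by rw [hw]; push_cast; ring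
  have hK0 : (0:ℝ) ≤ K := by positivity
  have a1 : (K:ℝ) * w ^ 2 * (4 * Real.log w) ≤ K * w ^ 2 * (4 * w) := by gcongr
  have a2 : ((w:ℝ) ^ 2) ^ 2 * (1 / 2) ≤ ((w:ℝ) ^ 2) ^ 2 * Real.log 2 := by gcongr; linarith
  have a3 : ((w:ℝ) ^ 2) ^ 2 * (1 / 2) = K * w ^ 2 * (4 * w) + w ^ 2 * (4 * w) := by
    have : ((w:ℝ) ^ 2) ^ 2 * (1 / 2) = w ^ 3 * (w / 2) := by ring
    rw [this]; nth_rewrite 2 [hK]; ring
  nlinarith

def F (u : ℕ) : Finset ℕ := {1, 3, 4} ∪ Icc 8 (3 * u) ∪ (Icc 1 (u - 1)).image (u * ·) ∪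
  Icc (u * u - 3 * u) (u * u - 7) ∪ {u * u - 5, u * u - 2, u * u - 1, u * u}

theorem F_card (u : ℕ) (hu : 8 ≤ u) : (F u).card ≤ 8 * u := by
  have h : 8 * u ≤ u * u := Nat.mul_le_mul_right u hu
  unfold F
  refine (card_union_le _ _).trans ?_
  refine (Nat.add_le_add ((card_union_le _ _).trans (Nat.add_le_add ((card_union_le _ _).trans
    (Nat.add_le_add (card_union_le _ _) card_image_le)) le_rfl)) card_le_four).trans ?_
  simp
  omega

theorem mstd (u : ℕ) (hu : 8 ≤ u) (M : Finset ℕ) (hM : ∀ x ∈ M, 8 ≤ x ∧ x + 7 ≤ u * u) :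
    (∀ x ∈ F u ∪ M, 0 < x) ∧ ((F u ∪ M).image (Nat.cast : ℕ → ℚ) - (F u ∪ M).image (Nat.cast : ℕ → ℚ)).card <
      ((F u ∪ M).image (Nat.cast : ℕ → ℚ) + (F u ∪ M).image (Nat.cast : ℕ → ℚ)).card := by
  have h : 8 * u ≤ u * u := Nat.mul_le_mul_right u hu
  have key : ∀ x ∈ F u ∪ M, x = 1 ∨ x = 3 ∨ x = 4 ∨ (8 ≤ x ∧ x + 7 ≤ u * u) ∨ x + 5 = u * u ∨ x + 2 = u * u ∨
      x + 1 = u * u ∨ x = u * u := by
    intro x hx
    simp only [F, mem_union, mem_insert, mem_singleton, mem_Icc, mem_image] at hx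
    rcases hx with ((((hx | hx) | ⟨q, hq, rfl⟩) | hx) | hx) | hx
    · omega
    · omega
    · have a1 : u * 1 ≤ u * q := Nat.mul_le_mul_left u hq.1
      have a2 : u * (q + 1) ≤ u * u := Nat.mul_le_mul_left u (by omega)
      rw [mul_add] at a2
      omega
    · omega
    · omega
    · have := hM x hx; omega
  refine ⟨fun x hx => by have := key x hx; omega, ?_⟩
  set n := u * u with hn
  have h1 : ((F u ∪ M).image (Nat.cast : ℕ → ℚ) - (F u ∪ M).image (Nat.cast : ℕ → ℚ)).card ≤
      (((Icc (1 - (n:ℤ)) (n - 1)).erase (n - 7)).erase (7 - n)).card := by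
    refine le_trans (card_le_card ?_) (card_image_le (f := (Int.cast : ℤ → ℚ)))
    intro x hx
    obtain ⟨a, ha, b, hb, rfl⟩ := mem_sub.mp hx
    obtain ⟨a, ha', rfl⟩ := mem_image.mp ha
    obtain ⟨b, hb', rfl⟩ := mem_image.mp hb
    refine mem_image.mpr ⟨(a:ℤ) - b, ?_, by simp⟩
    have := key a ha'
    have := key b hb'
    simp only [mem_erase, mem_Icc]
    omega
  have h2 : ((Icc 2 (2 * n)).erase 3).card ≤
      ((F u ∪ M).image (Nat.cast : ℕ → ℚ) + (F u ∪ M).image (Nat.cast : ℕ → ℚ)).card := by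
    refine card_le_card_of_injOn (Nat.cast : ℕ → ℚ) ?_ (Nat.cast_injective.injOn)
    intro s hs
    suffices h : ∃ a ∈ F u, ∃ b ∈ F u, a + b = s by
      obtain ⟨a, ha, b, hb, rfl⟩ := h
      exact mem_coe.mpr (mem_add.mpr ⟨a, mem_image_of_mem _ (mem_union_left _ ha), b,
        mem_image_of_mem _ (mem_union_left _ hb), by simp⟩)
    have m1 : ∀ a, (a = 1 ∨ a = 3 ∨ a = 4 ∨ (8 ≤ a ∧ a ≤ 3 * u) ∨ (n ≤ a + 3 * u ∧ a + 7 ≤ n) ∨ a + 5 = n ∨
        a + 2 = n ∨ a + 1 = n ∨ a = n) → a ∈ F u := by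
      intro a ha
      simp only [F, mem_union, mem_insert, mem_singleton, mem_Icc, mem_image, ← hn]
      rcases ha with ha | ha | ha | ha | ha | ha | ha | ha | ha
      iterate 3 exact .inl (.inl (.inl (.inl (by omega))))
      · exact .inl (.inl (.inl (.inr ha)))
      · exact .inl (.inr (by omega))
      all_goals exact .inr (by omega)
    have m2 : ∀ q, 1 ≤ q → u * q < n → u * q ∈ F u := by
      intro q h1 h2
      have := Nat.lt_of_mul_lt_mul_left h2
      simp only [F, mem_union, mem_insert, mem_singleton, mem_Icc, mem_image]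
      exact .inl (.inl (.inr ⟨q, by omega, rfl⟩))
    simp only [coe_erase, coe_Icc, Set.mem_sdiff, Set.mem_Icc, Set.mem_singleton_iff] at hs
    by_cases c1 : s ≤ 3 * u + 1
    · by_cases c : s = 6 ∨ s = 7
      · exact ⟨3, m1 _ (by omega), s - 3, m1 _ (by omega), by omega⟩
      by_cases c' : s = 8
      · exact ⟨4, m1 _ (by omega), 4, m1 _ (by omega), by omega⟩
      exact ⟨1, m1 _ (by omega), s - 1, m1 _ (by omega), by omega⟩
    by_cases c2 : s ≤ n
    · have d1 := Nat.div_add_mod s u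
      have d2 := Nat.mod_lt s (show 0 < u by omega)
      obtain ⟨q, hq⟩ : ∃ q, s / u = q + 2 := ⟨s / u - 2, by
        have : 2 ≤ s / u := (Nat.le_div_iff_mul_le (by omega)).mpr (by omega)
        omega⟩
      rw [hq, show u * (q + 2) = u * (q + 1) + u by ring] at d1
      exact ⟨u * (q + 1), m2 _ (by omega) (by omega), s % u + u, m1 _ (by omega), by omega⟩
    by_cases c3 : s + 3 * u ≤ 2 * n
    · have d1 := Nat.div_add_mod (s - n) u
      have d2 := Nat.mod_lt (s - n) (show 0 < u by omega)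
      have d3 : u * ((s - n) / u + 2) = u * ((s - n) / u) + 2 * u := by ring
      exact ⟨u * ((s - n) / u + 2), m2 _ (Nat.le_add_left _ _) (by omega), n + (s - n) % u - 2 * u, m1 _ (by omega), by omega⟩
    by_cases c4 : s + 6 = 2 * n ∨ s + 3 = 2 * n
    · exact ⟨n - 1, m1 _ (by omega), s - (n - 1), m1 _ (by omega), by omega⟩
    by_cases c5 : s + 4 = 2 * n
    · exact ⟨n - 2, m1 _ (by omega), n - 2, m1 _ (by omega), by omega⟩
    exact ⟨n, m1 _ (by omega), s - n, m1 _ (by omega), by omega⟩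
  rw [card_erase_of_mem (by simp; omega), card_erase_of_mem (by simp; omega), Int.card_Icc] at h1
  rw [card_erase_of_mem (by simp; omega), Nat.card_Icc] at h2
  omega

theorem result : ∃ A : Finset ℕ, A.Nonempty ∧ (∀ a ∈ A, 0 < a) ∧
    (A.image (Nat.cast : ℕ → ℚ) - A.image (Nat.cast : ℕ → ℚ)).card <
      (A.image (Nat.cast : ℕ → ℚ) + A.image (Nat.cast : ℕ → ℚ)).card ∧
    (A.image (Nat.cast : ℕ → ℚ) / A.image (Nat.cast : ℕ → ℚ)).card <
      (A.image (Nat.cast : ℕ → ℚ) * A.image (Nat.cast : ℕ → ℚ)).card := by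
  obtain ⟨B, b1, b2, b3⟩ := tens 18
  have b4 : 2 * (B - B).card + 1 ≤ (B + B).card := by
    have := (b1.sub b1).card_pos
    norm_num at b3
    omega
  set c := 2 ^ B.sup Int.toNat with hc
  obtain ⟨v, hv, hp⟩ := many ((32 * B.card + 33) * (c + 1) + 11)
  set R := (range (v ^ 2 + 1)).filter Nat.Prime \ range 11 with hR
  set u := (c + 1) * v with hu
  have hu8 : 8 ≤ u := hv.trans (Nat.le_mul_of_pos_left v (Nat.succ_pos _))
  have hr : (32 * B.card + 33) * u ≤ R.card := by
    have := le_card_sdiff (range 11) ((range (v ^ 2 + 1)).filter Nat.Prime)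
    rw [card_range, ← hR] at this
    have e : ((32 * B.card + 33) * (c + 1) + 11) * v = (32 * B.card + 33) * u + 11 * v := by rw [hu]; ring
    omega
  have hR' : ∀ p ∈ R, p.Prime ∧ 11 ≤ p ∧ p ≤ v ^ 2 := fun p hp => by
    simp only [hR, mem_sdiff, mem_filter, mem_range] at hp
    exact ⟨hp.1.2, by omega, by omega⟩
  set M := image₂ (fun (b : ℤ) (p : ℕ) => 2 ^ b.toNat * p) B R with hM
  have hM' : ∀ x ∈ M, 8 ≤ x ∧ x + 7 ≤ u * u := by
    intro x hx
    obtain ⟨b, hb, p, hp, rfl⟩ := mem_image₂.mp hx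
    obtain ⟨-, p1, p2⟩ := hR' p hp
    have a1 : 2 ^ b.toNat ≤ c := Nat.pow_le_pow_right (by norm_num) (le_sup hb)
    have a2 : 0 < 2 ^ b.toNat := by positivity
    have a3 := Nat.mul_le_mul a1 p2
    refine ⟨by nlinarith, ?_⟩
    rw [hu]
    nlinarith [Nat.zero_le (c * c * v ^ 2), Nat.zero_le (c * v ^ 2)]
  obtain ⟨h1, h2⟩ := mstd u hu8 M hM'
  refine ⟨F u ∪ M, ⟨1, by simp [F]⟩, h1, h2, ?_⟩
  set Q := (F u ∪ M).image (Nat.cast : ℕ → ℚ) with hQ
  set P := (R ×ˢ R).filter fun z => z.1 ≤ z.2 with hP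
  have e1 : R.card * R.card ≤ 2 * P.card := by
    rw [← card_product, two_mul]
    refine le_trans (card_le_card ?_) ((card_union_le P (P.image Prod.swap)).trans
      (Nat.add_le_add_left card_image_le _))
    rintro ⟨p, q⟩ h
    rcases le_total p q with l | l
    · exact mem_union_left _ (mem_filter.mpr ⟨h, l⟩)
    · exact mem_union_right _ (mem_image.mpr ⟨(q, p), mem_filter.mpr ⟨by simpa [and_comm] using h, l⟩, rfl⟩)
  have e2 : (B + B).card * P.card ≤ (Q * Q).card := by
    rw [← card_product]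
    refine card_le_card_of_injOn (fun z => ((2 ^ z.1.toNat * (z.2.1 * z.2.2) : ℕ) : ℚ)) ?_ ?_
    · rintro ⟨e, p, q⟩ h
      obtain ⟨he, hz⟩ := mem_product.mp h
      obtain ⟨a, ha, b, hb, rfl⟩ := mem_add.mp he
      obtain ⟨hp, hq⟩ := mem_product.mp (mem_filter.mp hz).1
      refine mem_coe.mpr (mem_mul.mpr ⟨_, mem_image_of_mem _ (mem_union_right _ (mem_image₂_of_mem ha hp)), _,
        mem_image_of_mem _ (mem_union_right _ (mem_image₂_of_mem hb hq)), ?_⟩)
      simp only [Int.toNat_add (b2 a ha) (b2 b hb)]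
      push_cast; ring
    · rintro ⟨e, p, q⟩ h ⟨e', p', q'⟩ h' heq
      have heq : 2 ^ e.toNat * (p * q) = 2 ^ e'.toNat * (p' * q') := Nat.cast_injective heq
      obtain ⟨he, hz⟩ := mem_product.mp h
      obtain ⟨he', hz'⟩ := mem_product.mp h'
      obtain ⟨hz, l⟩ := mem_filter.mp hz
      obtain ⟨hz', l'⟩ := mem_filter.mp hz'
      obtain ⟨hp, hq⟩ := mem_product.mp hz
      obtain ⟨hp', hq'⟩ := mem_product.mp hz'
      simp only at l l' hp hq hp' hq' he he'
      have co : ∀ k p q, p ∈ R → q ∈ R → (2 ^ k).Coprime (p * q) := fun k p q hp hq => by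
        have a := hR' p hp
        have b := hR' q hq
        exact Nat.Coprime.pow_left _ (Nat.Coprime.mul_right
          ((Nat.coprime_primes Nat.prime_two a.1).mpr (by omega))
          ((Nat.coprime_primes Nat.prime_two b.1).mpr (by omega)))
      have d1 := (Nat.pow_dvd_pow_iff_le_right (by norm_num)).mp
        ((co _ _ _ hp' hq').dvd_of_dvd_mul_right (Dvd.intro _ heq))
      have d2 := (Nat.pow_dvd_pow_iff_le_right (by norm_num)).mp
        ((co _ _ _ hp hq).dvd_of_dvd_mul_right (Dvd.intro _ heq.symm))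
      have nn : ∀ x ∈ B + B, 0 ≤ x := fun x hx => by
        obtain ⟨a, ha, b, hb, rfl⟩ := mem_add.mp hx
        exact add_nonneg (b2 a ha) (b2 b hb)
      have := nn e he
      have := nn e' he'
      obtain rfl : e = e' := by omega
      have heq := Nat.eq_of_mul_eq_mul_left (by positivity) heq
      have a := hR' p hp
      have : p = p' := by
        rcases (Nat.Prime.dvd_mul a.1).mp (Dvd.intro _ heq) with d | d
        · exact (Nat.prime_dvd_prime_iff_eq a.1 (hR' _ hp').1).mp d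
        · have := (Nat.prime_dvd_prime_iff_eq a.1 (hR' _ hq').1).mp d
          subst this
          rw [mul_comm p'] at heq
          have := Nat.eq_of_mul_eq_mul_left (by omega) heq
          omega
      subst this
      rw [Nat.eq_of_mul_eq_mul_left (by omega) heq]
  set G := (F u).image (Nat.cast : ℕ → ℚ) with hG
  have e3 : (Q / Q).card ≤ (B - B).card * (R.card * R.card) + (G.card * Q.card + Q.card * G.card) := by
    rw [← card_product, ← card_product]
    refine le_trans (card_le_card ?_) ((card_union_le _ (G / Q ∪ Q / G)).trans (Nat.add_le_add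
      (card_image_le (f := fun z : ℤ × ℕ × ℕ => (2:ℚ) ^ z.1 * z.2.1 / z.2.2))
      ((card_union_le _ _).trans (Nat.add_le_add card_div_le card_div_le))))
    intro x hx
    obtain ⟨a, ha, b, hb, rfl⟩ := mem_div.mp hx
    obtain ⟨a', ha', rfl⟩ := mem_image.mp ha
    obtain ⟨b', hb', rfl⟩ := mem_image.mp hb
    rcases mem_union.mp ha' with ha' | ha'
    · exact mem_union_right _ (mem_union_left _ (div_mem_div (mem_image_of_mem _ ha') hb))
    rcases mem_union.mp hb' with hb' | hb'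
    · exact mem_union_right _ (mem_union_right _ (div_mem_div ha (mem_image_of_mem _ hb')))
    obtain ⟨i, hi, p, hp, rfl⟩ := mem_image₂.mp ha'
    obtain ⟨j, hj, q, hq, rfl⟩ := mem_image₂.mp hb'
    refine mem_union_left _ (mem_image.mpr ⟨(i - j, p, q), mem_product.mpr ⟨sub_mem_sub hi hj,
      mem_product.mpr ⟨hp, hq⟩⟩, ?_⟩)
    obtain ⟨i, rfl⟩ := Int.eq_ofNat_of_zero_le (b2 i hi)
    obtain ⟨j, rfl⟩ := Int.eq_ofNat_of_zero_le (b2 j hj)
    simp only [Int.toNat_natCast]
    rw [zpow_sub₀ (by norm_num), zpow_natCast, zpow_natCast]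
    push_cast
    rw [div_mul_eq_mul_div, div_div]
  have e4 : G.card ≤ 8 * u := card_image_le.trans (F_card u hu8)
  have e5 : Q.card ≤ 8 * u + B.card * R.card := card_image_le.trans ((card_union_le _ _).trans
    (Nat.add_le_add (F_card u hu8) (card_image₂_le _ _ _)))
  have e6 := Nat.mul_le_mul e4 e5
  have e7 := Nat.mul_le_mul_right P.card b4
  have e8 := Nat.mul_le_mul_left (B - B).card e1
  have e9 := Nat.mul_le_mul_right R.card hr
  have e10 : 33 * u ≤ R.card := le_trans (Nat.mul_le_mul_right u (by omega)) hr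
  have e11 := Nat.mul_le_mul_left u e10
  have e12 : 0 < u * u := by positivity
  nlinarith

end Pool.Agent.Results.MP_9356de_co.Both
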